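import Pool.Agent.Y300.LC.Top

/-! # Local cyclicity of planar polynomial systems of degree `n`: the bound `n ^ 2 + n - 2`

For every `n ≥ 7` there is a holomorphic centre `z' = i (z + p z^(n-1) + q z^n)` of degree `n` from
which at least `n ^ 2 + n - 2` limit cycles bifurcate in the class of all systems of degree `n`. -/

open Set Topology

namespace Pool.Agent.Results.MP_940ffa_an.LocalCyclicity

/-- the set of all closed orbits (ranges of nonconstant periodic solutions) in the plane of the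
vector field `(P, Q)` -/
def closedOrbits (P Q : MvPolynomial (Fin 2) ℝ) : Set (Set (ℝ × ℝ)) :=
  {C | ∃ γ : ℝ → ℝ × ℝ, ∃ T : ℝ, 0 < T ∧
    (∀ t : ℝ, HasDerivAt γ
      (MvPolynomial.eval ![(γ t).1, (γ t).2] P, MvPolynomial.eval ![(γ t).1, (γ t).2] Q) t) ∧
    (∀ t : ℝ, γ (t + T) = γ t) ∧ (∃ s t : ℝ, γ s ≠ γ t) ∧ C = Set.range γ}

/-- the set of all limit cycles: closed orbits at positive distance from all other closed orbits
(a uniform distance `ε`) -/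
def limitCycles (P Q : MvPolynomial (Fin 2) ℝ) : Set (Set (ℝ × ℝ)) :=
  {C | C ∈ closedOrbits P Q ∧ ∃ ε : ℝ, 0 < ε ∧
    ∀ D ∈ closedOrbits P Q, D ≠ C → ∀ x ∈ D, ∀ y ∈ C, ε ≤ dist x y}

/-- the cyclicity of the point `z₀` of the system `(P₀, Q₀)` in degree `n` is at least `m`: for every
neighbourhood `U` of `z₀` and every `δ > 0` there is a system of degree at most `n`, with
coefficients within `δ` of those of `(P₀, Q₀)`, having at least `m` limit cycles contained in `U` -/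
def CyclicityAtLeast (n m : ℕ) (P₀ Q₀ : MvPolynomial (Fin 2) ℝ) (z₀ : ℝ × ℝ) : Prop :=
  ∀ U ∈ 𝓝 z₀, ∀ δ : ℝ, 0 < δ → ∃ P Q : MvPolynomial (Fin 2) ℝ,
    P.totalDegree ≤ n ∧ Q.totalDegree ≤ n ∧
    (∀ d, |P.coeff d - P₀.coeff d| < δ) ∧ (∀ d, |Q.coeff d - Q₀.coeff d| < δ) ∧
    (m : ℕ∞) ≤ {C | C ∈ limitCycles P Q ∧ C ⊆ U}.encard

/-- `z₀` is a non-degenerate focus or centre: a critical point of `(P, Q)` at which the Jacobian
matrix has non-real eigenvalues (trace ^ 2 < 4 determinant) -/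
def Nondegenerate (P Q : MvPolynomial (Fin 2) ℝ) (z₀ : ℝ × ℝ) : Prop :=
  MvPolynomial.eval ![z₀.1, z₀.2] P = 0 ∧ MvPolynomial.eval ![z₀.1, z₀.2] Q = 0 ∧
  (MvPolynomial.eval ![z₀.1, z₀.2] (MvPolynomial.pderiv 0 P) +
      MvPolynomial.eval ![z₀.1, z₀.2] (MvPolynomial.pderiv 1 Q)) ^ 2 <
    4 * (MvPolynomial.eval ![z₀.1, z₀.2] (MvPolynomial.pderiv 0 P) *
        MvPolynomial.eval ![z₀.1, z₀.2] (MvPolynomial.pderiv 1 Q) -
      MvPolynomial.eval ![z₀.1, z₀.2] (MvPolynomial.pderiv 1 P) *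
        MvPolynomial.eval ![z₀.1, z₀.2] (MvPolynomial.pderiv 0 Q))

/-- `Ĥ n`: the supremum of the cyclicities in degree `n` of the non-degenerate foci and centres of
all systems of degree `n` -/
noncomputable def Hhat (n : ℕ) : ℕ∞ :=
  sSup {c | ∃ (P Q : MvPolynomial (Fin 2) ℝ) (z₀ : ℝ × ℝ) (m : ℕ),
    max P.totalDegree Q.totalDegree = n ∧ Nondegenerate P Q z₀ ∧ CyclicityAtLeast n m P Q z₀ ∧
    c = m}

/-- **`Ĥ n ≥ n ^ 2 + n - 2` for all `n ≥ 7`**, attained at a holomorphic centre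
`z' = i (z + p z^(n-1) + q z^n)`, `q ≠ 0`. -/
theorem result (n : ℕ) (hn : 7 ≤ n) :
    (∃ (p q : ℂ) (P₀ Q₀ : MvPolynomial (Fin 2) ℝ), q ≠ 0 ∧
      (∀ x y : ℝ, ((MvPolynomial.eval ![x, y] P₀ : ℝ) : ℂ) +
          ((MvPolynomial.eval ![x, y] Q₀ : ℝ) : ℂ) * Complex.I =
        Complex.I * ((x + y * Complex.I) + p * (x + y * Complex.I) ^ (n - 1) +
          q * (x + y * Complex.I) ^ n)) ∧
      max P₀.totalDegree Q₀.totalDegree = n ∧ Nondegenerate P₀ Q₀ (0, 0) ∧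
      CyclicityAtLeast n (n ^ 2 + n - 2) P₀ Q₀ (0, 0)) ∧
    ((n ^ 2 + n - 2 : ℕ) : ℕ∞) ≤ Hhat n := by
  obtain ⟨p, q, P₀, Q₀, hq, hf, hdeg, ⟨⟨h1, h2⟩, h3, h4, h5, h6⟩, hc⟩ := Y300.LC.top n hn
  have hnd : Nondegenerate P₀ Q₀ (0, 0) := by
    refine ⟨h1, h2, ?_⟩
    simp only
    rw [h3, h4, h5, h6]
    norm_num
  have hc' : CyclicityAtLeast n (n ^ 2 + n - 2) P₀ Q₀ (0, 0) := hc
  exact ⟨⟨p, q, P₀, Q₀, hq, hf, hdeg, hnd, hc'⟩,
    le_sSup ⟨P₀, Q₀, (0, 0), _, hdeg, hnd, hc', rfl⟩⟩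

end Pool.Agent.Results.MP_940ffa_an.LocalCyclicity
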